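import Mathlib
import Pool.Agent.H11.Selberg.Defs
import Pool.Agent.H11.SC6.PrimDef
import Pool.Agent.H11.PE.RDefs
import Pool.Agent.H11.PI.RDefs
import Pool.Agent.H11.PE.FINL
import Pool.Agent.H11.PI.FINI

set_option autoImplicit false

namespace Pool.Agent.Results.MP_8e9775_nt.PretentiousDegreeTwo

open Pool.Agent.H11.Selberg Pool.Agent.H11.PE Pool.Agent.H11.PI

/-- Let `F` be an entire element of the Selberg class which satisfies a functional equation of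
degree `2` (any Gamma factors) with conductor `q`, and `T(α) = ∑_p |a(p)|² p^(-1-α)`.  Suppose that
`q` is rational, or that `S_F(x) = O(log log x)` and `q` is not extremely well approximable by
rational numbers (`|q - h/k| ≥ c exp(-k^ε)`, `c = c(ε) > 0`, for every `ε > 0`).  Exactly one of the
following holds.

(i) `F(s) = L(s + i t1, χ1) L(s + i t2, χ2)` with primitive non-principal Dirichlet characters.  In this case
`F` is not primitive and `S_F(x) - log log x` is unbounded.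

(ii) For every Dirichlet character `χ`, all real `t` and all `η > 0` there is `C` with
`Re ∑_p a(p) χ(p) p^(-1-it-α) ≤ η (T(α) log (1/α))^(1/2) + C` for `0 < α ≤ 1/2`.  In this case, if
`S_F(x) = O(log log x)`, then `Re ∑_{p ≤ x} a(p) χ(p) p^(-1-it) ≤ η log log x + C` for `x ≥ 16`. -/
theorem result :
    ∀ (a : ℕ → ℂ) (F : ℂ → ℂ), IsSelberg a F →
    (∃ G : ℂ → ℂ, Differentiable ℂ G ∧ ∀ s, s ≠ 1 → G s = F s) →
    ∀ (Q : ℝ) (r : ℕ) (lam : Fin r → ℝ) (mu : Fin r → ℂ) (ε : ℂ),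
    0 < Q → (∀ j, 0 < lam j) → (∀ j, 0 ≤ (mu j).re) → ‖ε‖ = 1 →
    (∀ s : ℂ, 0 < s.re → s.re < 1 →
      completed Q lam mu F s =
        ε * (starRingEnd ℂ) (completed Q lam mu F (1 - (starRingEnd ℂ) s))) →
    2 * ∑ j, lam j = 2 →
    ((∃ k : ℚ, (2 * Real.pi) ^ 2 * Q ^ 2 * ∏ j, (lam j) ^ (2 * lam j) = (k : ℝ)) ∨
      (NotSuper ((2 * Real.pi) ^ 2 * Q ^ 2 * ∏ j, (lam j) ^ (2 * lam j)) ∧
        ∃ C : ℝ, ∀ x : ℝ, 16 ≤ x → S a x ≤ C * Real.log (Real.log x))) →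
    (IsDirichletPair F ∧ ¬ NotPretentious a ∧ ¬ IsPrimitive a F ∧
      ¬ ∃ C : ℝ, ∀ x : ℝ, 2 ≤ x → |S a x - Real.log (Real.log x)| ≤ C) ∨
    (¬ IsDirichletPair F ∧ NotPretentious a ∧
      ((∃ C : ℝ, ∀ x : ℝ, 16 ≤ x → S a x ≤ C * Real.log (Real.log x)) →
        ∀ (L : ℕ) (_ : NeZero L) (χ : DirichletCharacter ℂ L) (t η : ℝ), 0 < η →
          ∃ C : ℝ, ∀ x : ℝ, 16 ≤ x →
            (∑ p ∈ (Finset.Icc 1 ⌊x⌋₊).filter Nat.Prime,
              a p * χ (p : ZMod L) * (p : ℂ) ^ (-(1 + t * Complex.I) : ℂ)).re ≤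
              η * Real.log (Real.log x) + C)) := by
  rintro a F hS ⟨G, hG, hGF⟩ Q r lam mu ε hQ hlam hmu hε hfe hdeg hq
  by_cases hP : IsDirichletPair F
  · obtain ⟨h1, h2, h3⟩ := pair_not a F hS hP
    exact Or.inl ⟨hP, h1, h2, h3⟩
  · have hN : NotPretentious a :=
      (pair_or_all a F hS G hG hGF Q r lam mu ε hQ hlam hmu hε hfe hdeg hq).resolve_left hP
    refine Or.inr ⟨hP, hN, fun hO L hL χ t η hη => ?_⟩
    exact trunc_form a F hS hO χ t (fun η' hη' => hN L hL χ t η' hη') η hη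

end Pool.Agent.Results.MP_8e9775_nt.PretentiousDegreeTwo
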